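import Mathlib

/-!
Finite combinatorics of sets of strings of positive density.
-/

set_option autoImplicit false

namespace Pool.Agent.V11252.JB

open Finset

/-- restriction of a string -/
def rs (s : Finset ℕ) (N : ℕ) : Finset ℕ := s.filter (· < N)

theorem mem_rs {s : Finset ℕ} {N x : ℕ} : x ∈ rs s N ↔ x ∈ s ∧ x < N := by simp [rs]

theorem rs_rs {s : Finset ℕ} {N M : ℕ} (h : M ≤ N) : rs (rs s N) M = rs s M := by
  ext x
  simp only [mem_rs]
  constructor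
  · rintro ⟨⟨h1, _⟩, h2⟩; exact ⟨h1, h2⟩
  · rintro ⟨h1, h2⟩; exact ⟨⟨h1, by omega⟩, h2⟩

theorem rs_union (s t : Finset ℕ) (N : ℕ) : rs (s ∪ t) N = rs s N ∪ rs t N := by
  ext x
  simp only [mem_rs, mem_union]
  tauto

theorem rs_of_subset {s : Finset ℕ} {N M : ℕ} (h : s ⊆ range M) (hM : M ≤ N) : rs s N = s := by
  ext x
  simp only [mem_rs, and_iff_left_iff_imp]
  intro hx
  have := mem_range.1 (h hx)
  omega

theorem rs_of_Ico {s : Finset ℕ} {l h N : ℕ} (hs : s ⊆ Ico l h) (hN : N ≤ l) : rs s N = ∅ := by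
  ext x
  simp only [mem_rs, notMem_empty, iff_false, not_and, not_lt]
  intro hx
  have := (mem_Ico.1 (hs hx)).1
  omega

theorem rs_subset_Ico {s : Finset ℕ} {l h N : ℕ} (hs : s ⊆ Ico l h) : rs s N ⊆ Ico l N := by
  intro x hx
  rw [mem_rs] at hx
  have := (mem_Ico.1 (hs hx.1)).1
  exact mem_Ico.2 ⟨this, hx.2⟩

/-- conditions: two strings of length `l` and a set of common tails up to `h`, of density at
least `1 / c` -/
structure Cond where
  l : ℕ
  h : ℕ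
  c : ℕ
  S : Finset (Finset ℕ)
  t : Finset ℕ
  f : Finset ℕ

def Cond.str (C : Cond) (i : Bool) : Finset ℕ := if i then C.t else C.f

/-- codes of conditions -/
def Cond.enc (C : Cond) : ℕ := Encodable.encode (C.l, C.h, C.c, C.S, C.t, C.f)

def Cond.dec (n : ℕ) : Cond :=
  match (Encodable.decode (α := ℕ × ℕ × ℕ × Finset (Finset ℕ) × Finset ℕ × Finset ℕ) n) with
  | some (l, h, c, S, t, f) => ⟨l, h, c, S, t, f⟩
  | none => ⟨0, 0, 0, ∅, ∅, ∅⟩

@[simp] theorem Cond.dec_enc (C : Cond) : Cond.dec C.enc = C := by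
  unfold Cond.dec Cond.enc
  rw [Encodable.encodek]

structure Cond.Valid (C : Cond) : Prop where
  hl : C.l ≤ C.h
  hs : ∀ i, C.str i ⊆ range C.l
  hS : ∀ τ ∈ C.S, τ ⊆ Ico C.l C.h
  hc : 2 ^ (C.h - C.l) ≤ C.S.card * C.c

theorem Cond.Valid.ne {C : Cond} (h : C.Valid) : C.S.Nonempty := by
  by_contra hne
  rw [not_nonempty_iff_eq_empty] at hne
  have := h.hc
  rw [hne, card_empty, zero_mul] at this
  have h2 : 0 < 2 ^ (C.h - C.l) := by positivity
  omega

theorem Cond.Valid.cpos {C : Cond} (h : C.Valid) : 0 < C.c := by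
  by_contra hne
  have h0 : C.c = 0 := by omega
  have := h.hc
  rw [h0, mul_zero] at this
  have h2 : 0 < 2 ^ (C.h - C.l) := by positivity
  omega

/-- the full strings of a condition -/
def Full (C : Cond) (i : Bool) (s : Finset ℕ) : Prop := ∃ τ ∈ C.S, s = C.str i ∪ τ

/-- extension of conditions -/
structure Ext (C C' : Cond) : Prop where
  le_l : C.l ≤ C'.l
  le_h : C'.h ≤ C.h
  full : ∀ i s', Full C' i s' → ∃ s, Full C i s ∧ s' = rs s C'.h

theorem Ext.refl {C : Cond} (hC : C.Valid) : Ext C C := by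
  refine ⟨le_rfl, le_rfl, fun i s' h => ⟨s', h, ?_⟩⟩
  obtain ⟨τ, hτ, rfl⟩ := h
  symm
  refine rs_of_subset (M := C.h) ?_ le_rfl
  intro x hx
  rcases mem_union.1 hx with h | h
  · have := mem_range.1 (hC.hs i h)
    have := hC.hl
    exact mem_range.2 (by omega)
  · exact mem_range.2 (mem_Ico.1 (hC.hS τ hτ h)).2

theorem Ext.trans {C C' C'' : Cond} (h : Ext C C') (h' : Ext C' C'') : Ext C C'' := by
  refine ⟨h.le_l.trans h'.le_l, h'.le_h.trans h.le_h, fun i s'' hs => ?_⟩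
  obtain ⟨s', h1, rfl⟩ := h'.full i s'' hs
  obtain ⟨s, h2, rfl⟩ := h.full i s' h1
  exact ⟨s, h2, rs_rs h'.le_h⟩

/-- the strings of an extension extend the strings -/
theorem Ext.str {C C' : Cond} (h : Ext C C') (hC : C.Valid) (hC' : C'.Valid) (i : Bool) :
    rs (C'.str i) C.l = C.str i := by
  obtain ⟨τ, hτ⟩ := hC'.ne
  obtain ⟨s, ⟨ρ, hρ, rfl⟩, h2⟩ := h.full i _ ⟨τ, hτ, rfl⟩
  have h3 : rs (C'.str i ∪ τ) C.l = rs (C'.str i) C.l := by
    rw [rs_union, rs_of_Ico (hC'.hS τ hτ) h.le_l, union_empty]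
  have hle : C.l ≤ C'.h := h.le_l.trans hC'.hl
  rw [← h3, h2, rs_rs hle, rs_union, rs_of_Ico (hC.hS ρ hρ) le_rfl, union_empty]
  exact rs_of_subset (hC.hs i) le_rfl

/-- restriction of full strings -/
theorem Full.rs {C : Cond} (hC : C.Valid) {i : Bool} {s : Finset ℕ} (h : Full C i s) {N : ℕ}
    (hN : N ≤ C.l) : rs s N = rs (C.str i) N := by
  obtain ⟨τ, hτ, rfl⟩ := h
  rw [rs_union, rs_of_Ico (hC.hS τ hτ) hN, union_empty]

theorem card_fiber_rs {X : Finset (Finset ℕ)} {l h N : ℕ} (hX : ∀ τ ∈ X, τ ⊆ Ico l h) :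
    X.card ≤ 2 ^ (h - N) * (X.image fun τ => rs τ N).card := by
  classical
  refine card_le_mul_card_image X _ fun ρ _ => ?_
  have h1 : ((X.filter fun τ => rs τ N = ρ).card) ≤ ((Ico N h).powerset).card := by
    refine card_le_card_of_injOn (fun τ => τ.filter (N ≤ ·)) ?_ ?_
    · intro τ hτ
      have hτ := mem_filter.1 (mem_coe.1 hτ)
      refine mem_coe.2 (mem_powerset.2 ?_)
      intro x hx
      have hx := mem_filter.1 hx
      exact mem_Ico.2 ⟨hx.2, (mem_Ico.1 (hX τ hτ.1 hx.1)).2⟩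
    · intro τ hτ τ' hτ' heq
      have hτ := mem_filter.1 (mem_coe.1 hτ)
      have hτ' := mem_filter.1 (mem_coe.1 hτ')
      ext x
      by_cases hx : x < N
      · have e : rs τ N = rs τ' N := hτ.2.trans hτ'.2.symm
        have := Finset.ext_iff.1 e x
        simp only [mem_rs] at this
        tauto
      · have := Finset.ext_iff.1 heq x
        simp only [mem_filter] at this
        have hx' : N ≤ x := by omega
        tauto
  rwa [card_powerset, Nat.card_Ico] at h1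

/-! ### decisions -/

open Classical in
/-- the restrictions to `N` of the tails with a bad restriction -/
noncomputable def BB (C : Cond) (i : Bool) (N : ℕ) (bad : Finset ℕ → Prop) :
    Finset (Finset ℕ) :=
  (C.S.filter fun τ => bad (rs (C.str i ∪ τ) N)).image fun τ => rs τ N

/-- some `x < b` has many bad restrictions to `N` -/
def Many (C : Cond) (i : Bool) (b : ℕ) (bad : ℕ → ℕ → Finset ℕ → Prop) (N : ℕ) : Prop :=
  ∃ x < b, 2 ^ (N - C.l) ≤ (BB C i N (bad x N)).card * (2 * b * C.c)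

open Classical in
/-- the second case -/
noncomputable def case2 (C : Cond) (i : Bool) (b N : ℕ) (bad : ℕ → ℕ → Finset ℕ → Prop) : Cond :=
  { C with c := 2 * C.c, S := C.S.filter fun τ => ∀ x < b, ¬ bad x N (rs (C.str i ∪ τ) N) }

theorem case2_valid {C : Cond} (hC : C.Valid) (i : Bool) {b N : ℕ}
    {bad : ℕ → ℕ → Finset ℕ → Prop} (h1 : C.l ≤ N) (h2 : N ≤ C.h) (h : ¬ Many C i b bad N) :
    (case2 C i b N bad).Valid := by
  classical
  refine ⟨hC.hl, hC.hs, fun τ hτ => hC.hS τ (mem_filter.1 hτ).1, ?_⟩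
  unfold Many at h
  push Not at h
  let S' := C.S.filter fun τ => ∀ x < b, ¬ bad x N (rs (C.str i ∪ τ) N)
  let D : ℕ → Finset (Finset ℕ) := fun x => C.S.filter fun τ => bad x N (rs (C.str i ∪ τ) N)
  have hcov : C.S ⊆ S' ∪ (range b).biUnion D := by
    intro τ hτ
    by_cases hb : ∀ x < b, ¬ bad x N (rs (C.str i ∪ τ) N)
    · exact mem_union_left _ (mem_filter.2 ⟨hτ, hb⟩)
    · push Not at hb
      obtain ⟨x, hx, hbx⟩ := hb
      exact mem_union_right _ (mem_biUnion.2 ⟨x, mem_range.2 hx, mem_filter.2 ⟨hτ, hbx⟩⟩)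
  have hcard : C.S.card ≤ S'.card + ∑ x ∈ range b, (D x).card :=
    (card_le_card hcov).trans ((card_union_le _ _).trans
      (Nat.add_le_add_left card_biUnion_le _))
  have hD : ∀ x < b, (D x).card * (2 * b * C.c) ≤ 2 ^ (C.h - C.l) := by
    intro x hx
    have e1 : (D x).card ≤ 2 ^ (C.h - N) * (BB C i N (bad x N)).card :=
      card_fiber_rs (l := C.l) fun τ hτ => hC.hS τ (mem_filter.1 hτ).1
    have e2 := (h x hx).le
    calc (D x).card * (2 * b * C.c)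
        ≤ (2 ^ (C.h - N) * (BB C i N (bad x N)).card) * (2 * b * C.c) :=
          Nat.mul_le_mul_right _ e1
      _ = 2 ^ (C.h - N) * ((BB C i N (bad x N)).card * (2 * b * C.c)) := by ring
      _ ≤ 2 ^ (C.h - N) * 2 ^ (N - C.l) := Nat.mul_le_mul_left _ e2
      _ = 2 ^ (C.h - C.l) := by rw [← pow_add]; congr 1; omega
  have hsum : (∑ x ∈ range b, (D x).card) * (2 * b * C.c) ≤ b * 2 ^ (C.h - C.l) := by
    rw [sum_mul]
    calc ∑ x ∈ range b, (D x).card * (2 * b * C.c) ≤ ∑ x ∈ range b, 2 ^ (C.h - C.l) :=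
          sum_le_sum fun x hx => hD x (mem_range.1 hx)
      _ = b * 2 ^ (C.h - C.l) := by simp
  have hsum' : (∑ x ∈ range b, (D x).card) * (2 * C.c) ≤ 2 ^ (C.h - C.l) := by
    rcases Nat.eq_zero_or_pos b with hb | hb
    · subst hb; simp
    · refine Nat.le_of_mul_le_mul_left ?_ hb
      calc b * ((∑ x ∈ range b, (D x).card) * (2 * C.c))
          = (∑ x ∈ range b, (D x).card) * (2 * b * C.c) := by ring
        _ ≤ _ := hsum
  show 2 ^ (C.h - C.l) ≤ S'.card * (2 * C.c)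
  have h5 := hC.hc
  have h6 : C.S.card * C.c ≤ (S'.card + ∑ x ∈ range b, (D x).card) * C.c :=
    Nat.mul_le_mul_right _ hcard
  nlinarith

theorem case2_ext {C : Cond} (hC : C.Valid) (i : Bool) (b N : ℕ)
    (bad : ℕ → ℕ → Finset ℕ → Prop) : Ext C (case2 C i b N bad) := by
  classical
  refine ⟨le_rfl, le_rfl, fun j s' hs => ?_⟩
  obtain ⟨τ, hτ, rfl⟩ := hs
  have h := (Ext.refl hC).full j (C.str j ∪ τ) ⟨τ, (mem_filter.1 hτ).1, rfl⟩
  exact h

theorem case2_dec {C : Cond} {i : Bool} {b N : ℕ} {bad : ℕ → ℕ → Finset ℕ → Prop}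
    {s : Finset ℕ} (hs : Full (case2 C i b N bad) i s) : ∀ x < b, ¬ bad x N (rs s N) := by
  classical
  obtain ⟨τ, hτ, rfl⟩ := hs
  exact (mem_filter.1 hτ).2

open Classical in
/-- the first case -/
noncomputable def case1 (C : Cond) (i : Bool) (b x N : ℕ) (bad : ℕ → ℕ → Finset ℕ → Prop) :
    Cond :=
  { C with h := N, c := 2 * b * C.c, S := BB C i N (bad x N) }

theorem case1_valid {C : Cond} (hC : C.Valid) (i : Bool) {b x N : ℕ}
    {bad : ℕ → ℕ → Finset ℕ → Prop} (h1 : C.l ≤ N)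
    (h : 2 ^ (N - C.l) ≤ (BB C i N (bad x N)).card * (2 * b * C.c)) :
    (case1 C i b x N bad).Valid := by
  classical
  refine ⟨h1, hC.hs, fun τ hτ => ?_, h⟩
  obtain ⟨ρ, hρ, rfl⟩ := mem_image.1 hτ
  exact rs_subset_Ico (hC.hS ρ (mem_filter.1 hρ).1)

theorem case1_ext {C : Cond} (hC : C.Valid) (i : Bool) {b x N : ℕ}
    (bad : ℕ → ℕ → Finset ℕ → Prop) (h1 : C.l ≤ N) (h2 : N ≤ C.h) :
    Ext C (case1 C i b x N bad) := by
  classical
  refine ⟨le_rfl, h2, fun j s' hs => ?_⟩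
  obtain ⟨τ, hτ, rfl⟩ := hs
  obtain ⟨ρ, hρ, rfl⟩ := mem_image.1 hτ
  refine ⟨C.str j ∪ ρ, ⟨ρ, (mem_filter.1 hρ).1, rfl⟩, ?_⟩
  show C.str j ∪ rs ρ N = rs (C.str j ∪ ρ) N
  rw [rs_union, rs_of_subset (hC.hs j) h1]

theorem case1_dec {C : Cond} (hC : C.Valid) {i : Bool} {b x N : ℕ}
    {bad : ℕ → ℕ → Finset ℕ → Prop} (h1 : C.l ≤ N) {s : Finset ℕ}
    (hs : Full (case1 C i b x N bad) i s) : bad x N s := by
  classical
  obtain ⟨τ, hτ, rfl⟩ := hs
  obtain ⟨ρ, hρ, rfl⟩ := mem_image.1 hτ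
  have e : (case1 C i b x N bad).str i ∪ rs ρ N = rs (C.str i ∪ ρ) N := by
    show C.str i ∪ rs ρ N = rs (C.str i ∪ ρ) N
    rw [rs_union, rs_of_subset (hC.hs i) h1]
  rw [e]
  exact (mem_filter.1 hρ).2

/-! ### branching -/

/-- the two strings differ at `y` -/
def Diff (C : Cond) (y : ℕ) : Prop := ¬ (y ∈ C.t ↔ y ∈ C.f)

theorem branch_exists {C : Cond} (hC : C.Valid) {r : ℕ} (h1 : C.l ≤ r ^ 2)
    (h2 : (r + 1) ^ 2 ≤ C.h) (h3 : C.c ≤ r) :
    ∃ C' : Cond, C'.Valid ∧ Ext C C' ∧ C'.l = (r + 1) ^ 2 ∧ C'.h = C.h ∧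
      C'.c = 8 ^ (2 * r + 1) ∧ (∃ y, Diff C' y ∧ r ^ 2 ≤ y ∧ y < (r + 1) ^ 2) ∧
      ∀ y, Diff C' y → Diff C y ∨ (r ^ 2 ≤ y ∧ y < (r + 1) ^ 2) := by
  classical
  set m := 2 * r + 1 with hm
  have hrm : (r + 1) ^ 2 = r ^ 2 + m := by rw [hm]; ring
  set l1 := r ^ 2 with hl1
  set l2 := (r + 1) ^ 2 with hl2
  let P : Finset (Finset ℕ) := (Ico C.l l1).powerset
  let U : Finset (Finset ℕ) := (Ico l2 C.h).powerset
  let Md : Finset (Finset ℕ) := (Ico l1 l2).powerset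
  have hPc : P.card = 2 ^ (l1 - C.l) := by rw [card_powerset, Nat.card_Ico]
  have hUc : U.card = 2 ^ (C.h - l2) := by rw [card_powerset, Nat.card_Ico]
  have hMc : Md.card = 2 ^ m := by
    rw [card_powerset, Nat.card_Ico]
    congr 1
    omega
  let ρ : Finset ℕ → Finset ℕ := fun τ => τ.filter fun x => x < l1
  let σ : Finset ℕ → Finset ℕ := fun τ => τ.filter fun x => l1 ≤ x ∧ x < l2
  let υ : Finset ℕ → Finset ℕ := fun τ => τ.filter fun x => l2 ≤ x
  have hρ : ∀ τ ∈ C.S, ρ τ ∈ P := by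
    intro τ hτ
    refine mem_powerset.2 fun x hx => ?_
    have hx := mem_filter.1 hx
    exact mem_Ico.2 ⟨(mem_Ico.1 (hC.hS τ hτ hx.1)).1, hx.2⟩
  have hσ : ∀ τ ∈ C.S, σ τ ∈ Md := by
    intro τ hτ
    refine mem_powerset.2 fun x hx => ?_
    have hx := mem_filter.1 hx
    exact mem_Ico.2 hx.2
  have hυ : ∀ τ ∈ C.S, υ τ ∈ U := by
    intro τ hτ
    refine mem_powerset.2 fun x hx => ?_
    have hx := mem_filter.1 hx
    exact mem_Ico.2 ⟨hx.2, (mem_Ico.1 (hC.hS τ hτ hx.1)).2⟩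
  have hdec : ∀ τ : Finset ℕ, τ = ρ τ ∪ σ τ ∪ υ τ := by
    intro τ
    ext x
    simp only [ρ, σ, υ, mem_union, mem_filter]
    constructor
    · intro hx
      rcases lt_or_ge x l1 with h | h
      · exact Or.inl (Or.inl ⟨hx, h⟩)
      · rcases lt_or_ge x l2 with h' | h'
        · exact Or.inl (Or.inr ⟨hx, h, h'⟩)
        · exact Or.inr ⟨hx, h'⟩
    · rintro ((h | h) | h) <;> exact h.1
  let κ : Finset ℕ → Finset ℕ × Finset ℕ := fun τ => (ρ τ, υ τ)
  let Q : Finset (Finset ℕ × Finset ℕ) := (P ×ˢ U).filter fun k =>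
    ∃ τ ∈ C.S, ∃ τ' ∈ C.S, κ τ = k ∧ κ τ' = k ∧ σ τ ≠ σ τ'
  -- the cardinality of `Q`
  have hSle : C.S.card ≤ (P ×ˢ U).card + Q.card * 2 ^ m := by
    let S1 := C.S.filter fun τ => κ τ ∈ Q
    let S2 := C.S.filter fun τ => κ τ ∉ Q
    have e0 : C.S.card = S1.card + S2.card := (card_filter_add_card_filter_not _).symm
    have e1 : S1.card ≤ 2 ^ m * Q.card := by
      refine card_le_mul_card_image_of_maps_to (f := κ) (fun τ hτ => (mem_filter.1 hτ).2) _ ?_
      intro k _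
      rw [← hMc]
      refine card_le_card_of_injOn σ ?_ ?_
      · intro τ hτ
        exact hσ τ (mem_filter.1 (mem_filter.1 (mem_coe.1 hτ)).1).1
      · intro τ hτ τ' hτ' he
        have a1 := (mem_filter.1 (mem_coe.1 hτ)).2
        have a2 := (mem_filter.1 (mem_coe.1 hτ')).2
        have a3 : κ τ = κ τ' := a1.trans a2.symm
        have b1 : ρ τ = ρ τ' := congrArg Prod.fst a3
        have b2 : υ τ = υ τ' := congrArg Prod.snd a3
        rw [hdec τ, hdec τ', b1, b2, he]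
    have e2 : S2.card ≤ (P ×ˢ U).card := by
      refine card_le_card_of_injOn κ ?_ ?_
      · intro τ hτ
        have := mem_filter.1 (mem_coe.1 hτ)
        exact mem_coe.2 (mem_product.2 ⟨hρ τ this.1, hυ τ this.1⟩)
      · intro τ hτ τ' hτ' he
        have a1 := mem_filter.1 (mem_coe.1 hτ)
        have a2 := mem_filter.1 (mem_coe.1 hτ')
        have b1 : ρ τ = ρ τ' := congrArg Prod.fst he
        have b2 : υ τ = υ τ' := congrArg Prod.snd he
        by_contra hne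
        have hs : σ τ ≠ σ τ' := by
          intro hs
          apply hne
          rw [hdec τ, hdec τ', b1, b2, hs]
        exact a1.2 (mem_filter.2 ⟨mem_product.2 ⟨hρ τ a1.1, hυ τ a1.1⟩, τ, a1.1, τ', a2.1, rfl,
          he.symm, hs⟩)
    rw [e0]
    nlinarith
  have hPU : (P ×ˢ U).card = 2 ^ (l1 - C.l) * 2 ^ (C.h - l2) := by
    rw [card_product, hPc, hUc]
  have hpow : 2 ^ (C.h - C.l) = 2 ^ (l1 - C.l) * 2 ^ (C.h - l2) * 2 ^ m := by
    rw [← pow_add, ← pow_add]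
    congr 1
    omega
  have hc2 : 2 * C.c ≤ 2 ^ m := by
    have : m < 2 ^ m := Nat.lt_two_pow_self
    omega
  have hQ : 2 ^ (l1 - C.l) * 2 ^ (C.h - l2) ≤ Q.card * 2 ^ m := by
    have h5 := hC.hc
    rw [hpow] at h5
    have h6 : 2 * (2 ^ (l1 - C.l) * 2 ^ (C.h - l2) * 2 ^ m) ≤ C.S.card * 2 ^ m := by
      calc 2 * (2 ^ (l1 - C.l) * 2 ^ (C.h - l2) * 2 ^ m) ≤ 2 * (C.S.card * C.c) :=
            Nat.mul_le_mul_left _ h5
        _ = C.S.card * (2 * C.c) := by ring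
        _ ≤ C.S.card * 2 ^ m := Nat.mul_le_mul_left _ hc2
    have h7 : 2 * (2 ^ (l1 - C.l) * 2 ^ (C.h - l2)) ≤ C.S.card := by
      refine Nat.le_of_mul_le_mul_right (c := 2 ^ m) ?_ (by positivity)
      calc 2 * (2 ^ (l1 - C.l) * 2 ^ (C.h - l2)) * 2 ^ m
          = 2 * (2 ^ (l1 - C.l) * 2 ^ (C.h - l2) * 2 ^ m) := by ring
        _ ≤ _ := h6
    rw [hPU] at hSle
    omega
  -- choice of the two strings
  have hch : ∀ k : Finset ℕ × Finset ℕ, ∃ p : Finset ℕ × Finset ℕ, k ∈ Q →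
      p.1 ∈ C.S ∧ p.2 ∈ C.S ∧ κ p.1 = k ∧ κ p.2 = k ∧ σ p.1 ≠ σ p.2 := by
    intro k
    by_cases hk : k ∈ Q
    · obtain ⟨_, τ, h4, τ', h5, h6, h7, h8⟩ := mem_filter.1 hk
      exact ⟨(τ, τ'), fun _ => ⟨h4, h5, h6, h7, h8⟩⟩
    · exact ⟨(∅, ∅), fun h => absurd h hk⟩
  choose p hp using hch
  let g : Finset ℕ × Finset ℕ → Finset ℕ × Finset ℕ × Finset ℕ :=
    fun k => (k.1, σ (p k).1, σ (p k).2)
  let T : Finset (Finset ℕ × Finset ℕ × Finset ℕ) := P ×ˢ (Md ×ˢ Md)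
  have hgT : ∀ k ∈ Q, g k ∈ T := by
    intro k hk
    obtain ⟨a1, a2, _, _, _⟩ := hp k hk
    have := (mem_product.1 (mem_filter.1 hk).1).1
    exact mem_product.2 ⟨this, mem_product.2 ⟨hσ _ a1, hσ _ a2⟩⟩
  have hTc : T.card = 2 ^ (l1 - C.l) * (2 ^ m * 2 ^ m) := by
    rw [card_product, card_product, hPc, hMc]
  have hQpos : 0 < Q.card := by
    by_contra h0
    have h0 : Q.card = 0 := by omega
    rw [h0, zero_mul] at hQ
    have : 0 < 2 ^ (l1 - C.l) * 2 ^ (C.h - l2) := by positivity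
    omega
  obtain ⟨k0, hk0⟩ := card_pos.1 hQpos
  have hTne : T.Nonempty := ⟨_, hgT k0 hk0⟩
  obtain ⟨z, hz, hmax⟩ := exists_max_image T (fun z => (Q.filter fun k => g k = z).card) hTne
  have hQT : Q.card ≤ (Q.filter fun k => g k = z).card * T.card :=
    card_le_mul_card_image_of_maps_to hgT _ fun b hb => hmax b hb
  set F := Q.filter fun k => g k = z with hF
  have hFne : F.Nonempty := by
    rw [← card_pos]
    by_contra h0
    have h0 : F.card = 0 := by omega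
    rw [h0, zero_mul] at hQT
    omega
  have hFc : 2 ^ (C.h - l2) ≤ F.card * 8 ^ m := by
    have e8 : (8 : ℕ) ^ m = 2 ^ m * 2 ^ m * 2 ^ m := by
      rw [← mul_pow, ← mul_pow]
    refine Nat.le_of_mul_le_mul_left (a := 2 ^ (l1 - C.l)) ?_ (by positivity)
    calc 2 ^ (l1 - C.l) * 2 ^ (C.h - l2) ≤ Q.card * 2 ^ m := hQ
      _ ≤ (F.card * T.card) * 2 ^ m := Nat.mul_le_mul_right _ hQT
      _ = 2 ^ (l1 - C.l) * (F.card * 8 ^ m) := by rw [hTc, e8]; ring
  obtain ⟨zρ, zσ, zσ'⟩ := z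
  have hFk : ∀ k ∈ F, k.1 = zρ ∧ σ (p k).1 = zσ ∧ σ (p k).2 = zσ' ∧ k ∈ Q := by
    intro k hk
    obtain ⟨a1, a2⟩ := mem_filter.1 hk
    have b1 : k.1 = zρ := congrArg Prod.fst a2
    have b2 : σ (p k).1 = zσ := congrArg (fun q => q.2.1) a2
    have b3 : σ (p k).2 = zσ' := congrArg (fun q => q.2.2) a2
    exact ⟨b1, b2, b3, a1⟩
  have hzT := mem_product.1 hz
  have hzρ : zρ ⊆ Ico C.l l1 := mem_powerset.1 hzT.1
  have hzσ : zσ ⊆ Ico l1 l2 := mem_powerset.1 (mem_product.1 hzT.2).1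
  have hzσ' : zσ' ⊆ Ico l1 l2 := mem_powerset.1 (mem_product.1 hzT.2).2
  have hne : zσ ≠ zσ' := by
    obtain ⟨k, hk⟩ := hFne
    obtain ⟨_, a2, a3, a4⟩ := hFk k hk
    rw [← a2, ← a3]
    exact (hp k a4).2.2.2.2
  have hl12 : l1 ≤ l2 := by omega
  -- the full strings
  have hstr : ∀ k ∈ F, (p k).1 = zρ ∪ zσ ∪ k.2 ∧ (p k).2 = zρ ∪ zσ' ∪ k.2 := by
    intro k hk
    obtain ⟨a1, a2, a3, a4⟩ := hFk k hk
    obtain ⟨_, _, b3, b4, _⟩ := hp k a4
    constructor
    · have c1 : ρ (p k).1 = k.1 := congrArg Prod.fst b3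
      have c2 : υ (p k).1 = k.2 := congrArg Prod.snd b3
      rw [hdec (p k).1, c1, c2, a1, a2]
    · have c1 : ρ (p k).2 = k.1 := congrArg Prod.fst b4
      have c2 : υ (p k).2 = k.2 := congrArg Prod.snd b4
      rw [hdec (p k).2, c1, c2, a1, a3]
  let C' : Cond := ⟨l2, C.h, 8 ^ m, F.image Prod.snd, C.t ∪ (zρ ∪ zσ), C.f ∪ (zρ ∪ zσ')⟩
  have hv : C'.Valid := by
    refine ⟨h2, ?_, ?_, ?_⟩
    · intro i x hx
      have hxx : x ∈ C.str i ∨ x ∈ zρ ∨ x ∈ zσ ∨ x ∈ zσ' := by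
        cases i with
        | true =>
          have hx : x ∈ C.t ∪ (zρ ∪ zσ) := hx
          have e : C.str true = C.t := rfl
          rw [e]
          simp only [mem_union] at hx
          tauto
        | false =>
          have hx : x ∈ C.f ∪ (zρ ∪ zσ') := hx
          have e : C.str false = C.f := rfl
          rw [e]
          simp only [mem_union] at hx
          tauto
      show x ∈ range l2
      rcases hxx with h | h | h | h
      · have := mem_range.1 (hC.hs i h)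
        exact mem_range.2 (by omega)
      · have := mem_Ico.1 (hzρ h)
        exact mem_range.2 (by omega)
      · exact mem_range.2 (mem_Ico.1 (hzσ h)).2
      · exact mem_range.2 (mem_Ico.1 (hzσ' h)).2
    · intro τ hτ
      obtain ⟨k, hk, rfl⟩ := mem_image.1 hτ
      have := (mem_product.1 (mem_filter.1 (hFk k hk).2.2.2).1).2
      exact mem_powerset.1 this
    · show 2 ^ (C.h - l2) ≤ (F.image Prod.snd).card * 8 ^ m
      rw [card_image_of_injOn]
      · exact hFc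
      · intro k hk k' hk' he
        have a1 := (hFk k (mem_coe.1 hk)).1
        have a2 := (hFk k' (mem_coe.1 hk')).1
        exact Prod.ext (a1.trans a2.symm) he
  refine ⟨C', hv, ⟨h1.trans hl12, le_rfl, ?_⟩, rfl, rfl, rfl, ?_, ?_⟩
  · intro i s' hs
    obtain ⟨τ, hτ, rfl⟩ := hs
    obtain ⟨k, hk, rfl⟩ := mem_image.1 hτ
    obtain ⟨b1, b2, _, _, _⟩ := hp k (hFk k hk).2.2.2
    obtain ⟨c1, c2⟩ := hstr k hk
    cases i with
    | true =>
      have hfull : Full C true (C.t ∪ (p k).1) := ⟨_, b1, rfl⟩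
      obtain ⟨s, hs1, hs2⟩ := (Ext.refl hC).full true _ hfull
      refine ⟨s, hs1, ?_⟩
      rw [← hs2, c1]
      show C.t ∪ (zρ ∪ zσ) ∪ k.2 = _
      rw [union_assoc]
    | false =>
      have hfull : Full C false (C.f ∪ (p k).2) := ⟨_, b2, rfl⟩
      obtain ⟨s, hs1, hs2⟩ := (Ext.refl hC).full false _ hfull
      refine ⟨s, hs1, ?_⟩
      rw [← hs2, c2]
      show C.f ∪ (zρ ∪ zσ') ∪ k.2 = _
      rw [union_assoc]
  · obtain ⟨y, hy⟩ : ∃ y, ¬ (y ∈ zσ ↔ y ∈ zσ') := by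
      by_contra hcon
      push Not at hcon
      exact hne (Finset.ext hcon)
    have hyr : l1 ≤ y ∧ y < l2 := by
      by_cases h : y ∈ zσ
      · exact mem_Ico.1 (hzσ h)
      · have : y ∈ zσ' := by tauto
        exact mem_Ico.1 (hzσ' this)
    refine ⟨y, ?_, hyr⟩
    have hnt : ∀ i, y ∉ C.str i := fun i h => by
      have := mem_range.1 (hC.hs i h)
      omega
    have hnt1 : y ∉ C.t := hnt true
    have hnt2 : y ∉ C.f := hnt false
    have hnρ : y ∉ zρ := fun h => by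
      have := mem_Ico.1 (hzρ h)
      omega
    show ¬ (y ∈ C.t ∪ (zρ ∪ zσ) ↔ y ∈ C.f ∪ (zρ ∪ zσ'))
    simp only [mem_union]
    tauto
  · intro y hy
    have hy : ¬ (y ∈ C.t ∪ (zρ ∪ zσ) ↔ y ∈ C.f ∪ (zρ ∪ zσ')) := hy
    by_cases h : l1 ≤ y ∧ y < l2
    · exact Or.inr h
    · left
      have n1 : y ∉ zσ := fun h' => h (mem_Ico.1 (hzσ h'))
      have n2 : y ∉ zσ' := fun h' => h (mem_Ico.1 (hzσ' h'))
      show ¬ (y ∈ C.t ↔ y ∈ C.f)
      by_cases hρy : y ∈ zρ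
      · exfalso
        apply hy
        simp [hρy]
      · simpa [hρy, n1, n2] using hy

end Pool.Agent.V11252.JB
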