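import Mathlib

/-!
Pure bounded formulas with one set variable, evaluated in the natural numbers.
-/

set_option autoImplicit false

namespace Pool.Agent.V11252.JB

/-- `a` in front of `v` -/
def consN (a : ℕ) (v : ℕ → ℕ) : ℕ → ℕ
  | 0 => a
  | n + 1 => v n

@[simp] theorem consN_zero (a : ℕ) (v : ℕ → ℕ) : consN a v 0 = a := rfl
@[simp] theorem consN_succ (a : ℕ) (v : ℕ → ℕ) (n : ℕ) : consN a v (n + 1) = v n := rfl

/-- terms: `var` de Bruijn variables, `cst` names of constants -/
inductive PT : Type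
  | var : ℕ → PT
  | cst : ℕ → PT
  | zero : PT
  | one : PT
  | add : PT → PT → PT
  | mul : PT → PT → PT

deriving instance Countable for PT

/-- bounded formulas; `mem t` says that `t` is in the set -/
inductive PF : Type
  | eq : PT → PT → PF
  | lt : PT → PT → PF
  | mem : PT → PF
  | neg : PF → PF
  | and : PF → PF → PF
  | ball : PT → PF → PF

deriving instance Countable for PF

def PT.val (e v : ℕ → ℕ) : PT → ℕ
  | .var i => v i
  | .cst i => e i
  | .zero => 0
  | .one => 1
  | .add s t => s.val e v + t.val e v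
  | .mul s t => s.val e v * t.val e v

def PF.holds (S : Finset ℕ) (e : ℕ → ℕ) : PF → (ℕ → ℕ) → Prop
  | .eq s t, v => s.val e v = t.val e v
  | .lt s t, v => s.val e v < t.val e v
  | .mem t, v => t.val e v ∈ S
  | .neg φ, v => ¬ φ.holds S e v
  | .and φ ψ, v => φ.holds S e v ∧ ψ.holds S e v
  | .ball t φ, v => ∀ a < t.val e v, φ.holds S e (consN a v)

/-- the use -/
def PF.use (e : ℕ → ℕ) : PF → (ℕ → ℕ) → ℕ
  | .eq _ _, _ => 0
  | .lt _ _, _ => 0
  | .mem t, v => t.val e v + 1
  | .neg φ, v => φ.use e v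
  | .and φ ψ, v => max (φ.use e v) (ψ.use e v)
  | .ball t φ, v => (Finset.range (t.val e v)).sup fun a => φ.use e (consN a v)

theorem PF.holds_congr (e : ℕ → ℕ) (φ : PF) : ∀ (v : ℕ → ℕ) (S S' : Finset ℕ),
    (∀ x < φ.use e v, (x ∈ S ↔ x ∈ S')) → (φ.holds S e v ↔ φ.holds S' e v) := by
  induction φ with
  | eq s t => intro v S S' _; exact Iff.rfl
  | lt s t => intro v S S' _; exact Iff.rfl
  | mem t => intro v S S' h; exact h _ (Nat.lt_succ_self _)
  | neg φ ih => intro v S S' h; exact not_congr (ih v S S' h)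
  | and φ ψ ih1 ih2 =>
    intro v S S' h
    exact and_congr (ih1 v S S' fun x hx => h x (lt_of_lt_of_le hx (le_max_left _ _)))
      (ih2 v S S' fun x hx => h x (lt_of_lt_of_le hx (le_max_right _ _)))
  | ball t φ ih =>
    intro v S S' h
    refine forall_congr' fun a => ?_
    refine forall_congr' fun ha => ?_
    refine ih _ S S' fun x hx => h x (lt_of_lt_of_le hx ?_)
    exact Finset.le_sup (f := fun a => φ.use e (consN a v)) (Finset.mem_range.2 ha)

/-- bound for the indices -/
def PT.bd : PT → ℕ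
  | .var i => i + 1
  | .cst i => i + 1
  | .zero => 0
  | .one => 0
  | .add s t => max s.bd t.bd
  | .mul s t => max s.bd t.bd

def PF.bd : PF → ℕ
  | .eq s t => max s.bd t.bd
  | .lt s t => max s.bd t.bd
  | .mem t => t.bd
  | .neg φ => φ.bd
  | .and φ ψ => max φ.bd ψ.bd
  | .ball t φ => max t.bd φ.bd

theorem PT.val_congr {e e' v v' : ℕ → ℕ} (t : PT) (he : ∀ i < t.bd, e i = e' i)
    (hv : ∀ i < t.bd, v i = v' i) : t.val e v = t.val e' v' := by
  induction t with
  | var i => exact hv i (Nat.lt_succ_self i)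
  | cst i => exact he i (Nat.lt_succ_self i)
  | zero => rfl
  | one => rfl
  | add s t ih1 ih2 =>
    simp only [PT.bd, lt_max_iff] at he hv
    simp only [PT.val]
    rw [ih1 (fun i hi => he i (Or.inl hi)) (fun i hi => hv i (Or.inl hi)),
      ih2 (fun i hi => he i (Or.inr hi)) (fun i hi => hv i (Or.inr hi))]
  | mul s t ih1 ih2 =>
    simp only [PT.bd, lt_max_iff] at he hv
    simp only [PT.val]
    rw [ih1 (fun i hi => he i (Or.inl hi)) (fun i hi => hv i (Or.inl hi)),
      ih2 (fun i hi => he i (Or.inr hi)) (fun i hi => hv i (Or.inr hi))]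

theorem PF.congr_assign (S : Finset ℕ) {e e' : ℕ → ℕ} (φ : PF) : ∀ {v v' : ℕ → ℕ},
    (∀ i < φ.bd, e i = e' i) → (∀ i < φ.bd, v i = v' i) →
      ((φ.holds S e v ↔ φ.holds S e' v') ∧ φ.use e v = φ.use e' v') := by
  induction φ with
  | eq s t =>
    intro v v' he hv
    simp only [PF.bd, lt_max_iff] at he hv
    refine ⟨?_, rfl⟩
    simp only [PF.holds]
    rw [s.val_congr (fun i hi => he i (Or.inl hi)) (fun i hi => hv i (Or.inl hi)),
      t.val_congr (fun i hi => he i (Or.inr hi)) (fun i hi => hv i (Or.inr hi))]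
  | lt s t =>
    intro v v' he hv
    simp only [PF.bd, lt_max_iff] at he hv
    refine ⟨?_, rfl⟩
    simp only [PF.holds]
    rw [s.val_congr (fun i hi => he i (Or.inl hi)) (fun i hi => hv i (Or.inl hi)),
      t.val_congr (fun i hi => he i (Or.inr hi)) (fun i hi => hv i (Or.inr hi))]
  | mem t =>
    intro v v' he hv
    simp only [PF.holds, PF.use]
    rw [t.val_congr he hv]
    exact ⟨Iff.rfl, rfl⟩
  | neg φ ih =>
    intro v v' he hv
    obtain ⟨h1, h2⟩ := ih he hv
    exact ⟨not_congr h1, h2⟩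
  | and φ ψ ih1 ih2 =>
    intro v v' he hv
    simp only [PF.bd, lt_max_iff] at he hv
    obtain ⟨h1, h2⟩ := ih1 (fun i hi => he i (Or.inl hi)) (fun i hi => hv i (Or.inl hi))
    obtain ⟨h3, h4⟩ := ih2 (fun i hi => he i (Or.inr hi)) (fun i hi => hv i (Or.inr hi))
    exact ⟨and_congr h1 h3, by simp only [PF.use]; rw [h2, h4]⟩
  | ball t φ ih =>
    intro v v' he hv
    simp only [PF.bd, lt_max_iff] at he hv
    have ht := t.val_congr (fun i hi => he i (Or.inl hi)) (fun i hi => hv i (Or.inl hi))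
    have key : ∀ a, ((φ.holds S e (consN a v) ↔ φ.holds S e' (consN a v')) ∧
        φ.use e (consN a v) = φ.use e' (consN a v')) := by
      intro a
      refine ih (fun i hi => he i (Or.inr hi)) fun i hi => ?_
      cases i with
      | zero => rfl
      | succ i => exact hv i (Or.inr (by omega))
    constructor
    · simp only [PF.holds]
      rw [ht]
      exact forall_congr' fun a => forall_congr' fun _ => (key a).1
    · simp only [PF.use]
      rw [ht]
      congr 1
      funext a
      exact (key a).2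

/-! ### definability without the set and constants -/

def PT.lift : PT → PT
  | .var i => .var (i + 1)
  | .cst i => .cst i
  | .zero => .zero
  | .one => .one
  | .add s t => .add s.lift t.lift
  | .mul s t => .mul s.lift t.lift

@[simp] theorem PT.val_lift (e v : ℕ → ℕ) (a : ℕ) (t : PT) :
    t.lift.val e (consN a v) = t.val e v := by
  induction t with
  | var i => rfl
  | cst i => rfl
  | zero => rfl
  | one => rfl
  | add s t ih1 ih2 => simp [PT.lift, PT.val, ih1, ih2]
  | mul s t ih1 ih2 => simp [PT.lift, PT.val, ih1, ih2]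

@[simp] theorem PT.val_add (e v : ℕ → ℕ) (s t : PT) :
    (PT.add s t).val e v = s.val e v + t.val e v := rfl
@[simp] theorem PT.val_mul (e v : ℕ → ℕ) (s t : PT) :
    (PT.mul s t).val e v = s.val e v * t.val e v := rfl
@[simp] theorem PT.val_one (e v : ℕ → ℕ) : PT.one.val e v = 1 := rfl
@[simp] theorem PT.val_zero (e v : ℕ → ℕ) : PT.zero.val e v = 0 := rfl
@[simp] theorem PT.val_var (e v : ℕ → ℕ) (i : ℕ) : (PT.var i).val e v = v i := rfl
@[simp] theorem PT.val_cst (e v : ℕ → ℕ) (i : ℕ) : (PT.cst i).val e v = e i := rfl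

/-- definable relations in an environment and an assignment -/
def Df (R : (ℕ → ℕ) → (ℕ → ℕ) → Prop) : Prop :=
  ∃ φ : PF, ∀ S e v, φ.holds S e v ↔ R e v

theorem Df.eq (s t : PT) : Df fun e v => s.val e v = t.val e v := ⟨.eq s t, fun _ _ _ => Iff.rfl⟩
theorem Df.lt (s t : PT) : Df fun e v => s.val e v < t.val e v := ⟨.lt s t, fun _ _ _ => Iff.rfl⟩
theorem Df.not {R} (h : Df R) : Df fun e v => ¬ R e v := by
  obtain ⟨φ, h⟩ := h
  exact ⟨.neg φ, fun S e v => not_congr (h S e v)⟩
theorem Df.and {R Q} (h : Df R) (h' : Df Q) : Df fun e v => R e v ∧ Q e v := by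
  obtain ⟨φ, h⟩ := h
  obtain ⟨ψ, h'⟩ := h'
  exact ⟨.and φ ψ, fun S e v => and_congr (h S e v) (h' S e v)⟩
theorem Df.congr {R Q : (ℕ → ℕ) → (ℕ → ℕ) → Prop} (h : Df R) (h' : ∀ e v, R e v ↔ Q e v) :
    Df Q := by
  obtain ⟨φ, h⟩ := h
  exact ⟨φ, fun S e v => (h S e v).trans (h' e v)⟩
theorem Df.ball {R} (t : PT) (h : Df R) : Df fun e v => ∀ a < t.val e v, R e (consN a v) := by
  obtain ⟨φ, h⟩ := h
  exact ⟨.ball t φ, fun S e v => forall_congr' fun a => forall_congr' fun _ => h S e _⟩
theorem Df.bex {R} (t : PT) (h : Df R) : Df fun e v => ∃ a < t.val e v, R e (consN a v) :=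
  ((h.not.ball t).not).congr fun e v => by push Not; rfl
theorem Df.le (s t : PT) : Df fun e v => s.val e v ≤ t.val e v :=
  (Df.lt t s).not.congr fun e v => not_lt

/-- Goedel's beta function with two arguments for the code -/
def bet (c d i : ℕ) : ℕ := c % ((i + 1) * d + 1)

theorem bet_le (c d i : ℕ) : bet c d i ≤ c := Nat.mod_le _ _

theorem Df.bet (c d i r : PT) :
    Df fun e v => JB.bet (c.val e v) (d.val e v) (i.val e v) = r.val e v := by
  have h := (((Df.eq c.lift (.add (.mul (.add (.mul (.add i.lift .one) d.lift) .one) (.var 0))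
    r.lift)).bex (.add c .one)).and (Df.lt r (.add (.mul (.add i .one) d) .one)))
  refine h.congr fun e v => ?_
  simp only [PT.val_lift, PT.val_add, PT.val_mul, PT.val_one, PT.val_var, consN_zero]
  unfold JB.bet
  constructor
  · rintro ⟨⟨q, _, hq⟩, hr⟩
    rw [hq, Nat.mul_add_mod, Nat.mod_eq_of_lt hr]
  · intro h
    refine ⟨⟨c.val e v / ((i.val e v + 1) * d.val e v + 1), ?_, ?_⟩, ?_⟩
    · exact Nat.lt_succ_of_le (Nat.div_le_self _ _)
    · rw [← h]
      exact (Nat.div_add_mod _ _).symm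
    · rw [← h]
      exact Nat.mod_lt _ (Nat.succ_pos _)

/-- equality of two values of the beta function -/
theorem Df.betEq (c d i c' d' i' : PT) :
    Df fun e v => JB.bet (c.val e v) (d.val e v) (i.val e v) =
      JB.bet (c'.val e v) (d'.val e v) (i'.val e v) := by
  have h := ((Df.bet c.lift d.lift i.lift (.var 0)).and
    (Df.bet c'.lift d'.lift i'.lift (.var 0))).bex (.add c .one)
  refine h.congr fun e v => ?_
  simp only [PT.val_lift, PT.val_add, PT.val_one, PT.val_var, consN_zero]
  constructor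
  · rintro ⟨a, _, h1, h2⟩
    rw [h1, h2]
  · intro h
    exact ⟨_, Nat.lt_succ_of_le (bet_le _ _ _), rfl, h.symm⟩

/-- existence of codes -/
theorem exists_bet (k : ℕ) (f : ℕ → ℕ) : ∃ c d, ∀ i < k, bet c d i = f i := by
  let l := List.ofFn fun i : Fin k => f i
  refine ⟨(Nat.unbeta l).unpair.1, (Nat.unbeta l).unpair.2, fun i hi => ?_⟩
  have h := Nat.beta_unbeta_coe l ⟨i, by simp [l, hi]⟩
  unfold Nat.beta at h
  unfold bet
  rw [h]
  simp [l]

end Pool.Agent.V11252.JB
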