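import Pool.Agent.V11252.JB.Form

/-!
The growth relation and its iteration.
-/

set_option autoImplicit false

namespace Pool.Agent.V11252.JB

def Step (x y : ℕ) : Prop :=
  (x + 2) * (x + 2) < y ∧
    (∀ c < x + 1, ∀ d < x + 1, ∀ k < x + 1, ∀ e < x + 1, ∃ c' < y + 1, ∃ d' < y + 1,
      (∀ i < k, bet c' d' i = bet c d i) ∧ bet c' d' k = e) ∧
    (∀ x' < x + 1, ∃ c < y + 1, ∃ d < y + 1, bet c d 0 = 1 ∧
      ∀ i < x', bet c d (i + 1) = bet c d i + bet c d i)

theorem Step.mono_left {x x' y : ℕ} (h : x ≤ x') (hs : Step x' y) : Step x y := by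
  obtain ⟨h1, h2, h3⟩ := hs
  refine ⟨lt_of_le_of_lt (Nat.mul_le_mul (by omega) (by omega)) h1, fun c hc d hd k hk e he =>
    h2 c (by omega) d (by omega) k (by omega) e (by omega), fun z hz => h3 z (by omega)⟩

theorem Step.mono_right {x y y' : ℕ} (h : y ≤ y') (hs : Step x y) : Step x y' := by
  obtain ⟨h1, h2, h3⟩ := hs
  refine ⟨lt_of_lt_of_le h1 h, fun c hc d hd k hk e he => ?_, fun z hz => ?_⟩
  · obtain ⟨c', hc', d', hd', h⟩ := h2 c hc d hd k hk e he
    exact ⟨c', by omega, d', by omega, h⟩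
  · obtain ⟨c', hc', d', hd', h⟩ := h3 z hz
    exact ⟨c', by omega, d', by omega, h⟩

theorem bound_aux (P : ℕ → ℕ → Prop) (hm : ∀ a y y', y ≤ y' → P a y → P a y') (n : ℕ)
    (h : ∀ a < n, ∃ y, P a y) : ∃ y, ∀ a < n, P a y := by
  induction n with
  | zero => exact ⟨0, fun a ha => absurd ha (Nat.not_lt_zero a)⟩
  | succ n ih =>
    obtain ⟨y, hy⟩ := ih fun a ha => h a (by omega)
    obtain ⟨z, hz⟩ := h n (by omega)
    refine ⟨max y z, fun a ha => ?_⟩
    rcases Nat.lt_succ_iff_lt_or_eq.1 ha with h1 | rfl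
    · exact hm _ _ _ (le_max_left _ _) (hy a h1)
    · exact hm _ _ _ (le_max_right _ _) hz

theorem exists_ext (c d k e : ℕ) : ∃ c' d', (∀ i < k, bet c' d' i = bet c d i) ∧
    bet c' d' k = e := by
  obtain ⟨c', d', h⟩ := exists_bet (k + 1) fun i => if i < k then bet c d i else e
  refine ⟨c', d', fun i hi => ?_, ?_⟩
  · rw [h i (by omega), if_pos hi]
  · rw [h k (by omega), if_neg (lt_irrefl _)]

theorem exists_pow (x : ℕ) : ∃ c d, bet c d 0 = 1 ∧
    ∀ i < x, bet c d (i + 1) = bet c d i + bet c d i := by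
  obtain ⟨c, d, h⟩ := exists_bet (x + 1) fun i => 2 ^ i
  refine ⟨c, d, by simpa using h 0 (by omega), fun i hi => ?_⟩
  rw [h (i + 1) (by omega), h i (by omega), pow_succ]
  ring

theorem exists_step (x : ℕ) : ∃ y, Step x y := by
  have h2 : ∃ y, ∀ c < x + 1, ∀ d < x + 1, ∀ k < x + 1, ∀ e < x + 1, ∃ c' < y + 1,
      ∃ d' < y + 1, (∀ i < k, bet c' d' i = bet c d i) ∧ bet c' d' k = e := by
    have m1 : ∀ c d k e y y' : ℕ, y ≤ y' → (∃ c' < y + 1,
      ∃ d' < y + 1, (∀ i < k, bet c' d' i = bet c d i) ∧ bet c' d' k = e) → (∃ c' < y' + 1,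
      ∃ d' < y' + 1, (∀ i < k, bet c' d' i = bet c d i) ∧ bet c' d' k = e) := by
      rintro c d k e y y' hy ⟨c', h1, d', h2, h3⟩
      exact ⟨c', by omega, d', by omega, h3⟩
    refine bound_aux (fun c y => ∀ d < x + 1, ∀ k < x + 1, ∀ e < x + 1, ∃ c' < y + 1,
      ∃ d' < y + 1, (∀ i < k, bet c' d' i = bet c d i) ∧ bet c' d' k = e) ?_ _ fun c _ => ?_
    · exact fun c y y' hy h d hd k hk e he => m1 _ _ _ _ _ _ hy (h d hd k hk e he)
    refine bound_aux (fun d y => ∀ k < x + 1, ∀ e < x + 1, ∃ c' < y + 1,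
      ∃ d' < y + 1, (∀ i < k, bet c' d' i = bet c d i) ∧ bet c' d' k = e) ?_ _ fun d _ => ?_
    · exact fun d y y' hy h k hk e he => m1 _ _ _ _ _ _ hy (h k hk e he)
    refine bound_aux (fun k y => ∀ e < x + 1, ∃ c' < y + 1,
      ∃ d' < y + 1, (∀ i < k, bet c' d' i = bet c d i) ∧ bet c' d' k = e) ?_ _ fun k _ => ?_
    · exact fun k y y' hy h e he => m1 _ _ _ _ _ _ hy (h e he)
    refine bound_aux (fun e y => ∃ c' < y + 1,
      ∃ d' < y + 1, (∀ i < k, bet c' d' i = bet c d i) ∧ bet c' d' k = e) ?_ _ fun e _ => ?_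
    · exact fun e y y' hy h => m1 _ _ _ _ _ _ hy h
    obtain ⟨c', d', h⟩ := exists_ext c d k e
    exact ⟨max c' d', c', by omega, d', by omega, h⟩
  have h3 : ∃ y, ∀ x' < x + 1, ∃ c < y + 1, ∃ d < y + 1, bet c d 0 = 1 ∧
      ∀ i < x', bet c d (i + 1) = bet c d i + bet c d i := by
    refine bound_aux (fun x' y => ∃ c < y + 1, ∃ d < y + 1, bet c d 0 = 1 ∧
      ∀ i < x', bet c d (i + 1) = bet c d i + bet c d i) ?_ _ fun x' _ => ?_
    · rintro x' y y' hy ⟨c', h1, d', h2, h3⟩
      exact ⟨c', by omega, d', by omega, h3⟩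
    obtain ⟨c', d', h⟩ := exists_pow x'
    exact ⟨max c' d', c', by omega, d', by omega, h⟩
  obtain ⟨y2, h2⟩ := h2
  obtain ⟨y3, h3⟩ := h3
  refine ⟨max ((x + 2) * (x + 2) + 1) (max y2 y3), by omega, fun c hc d hd k hk e he => ?_,
    fun z hz => ?_⟩
  · obtain ⟨c', hc', d', hd', h⟩ := h2 c hc d hd k hk e he
    exact ⟨c', by omega, d', by omega, h⟩
  · obtain ⟨c', hc', d', hd', h⟩ := h3 z hz
    exact ⟨c', by omega, d', by omega, h⟩

open Classical in
/-- the growth function -/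
noncomputable def FF (x : ℕ) : ℕ := Nat.find (exists_step x)

theorem FF_spec (x : ℕ) : Step x (FF x) := by
  classical
  exact Nat.find_spec (exists_step x)

theorem FF_le {x y : ℕ} (h : Step x y) : FF x ≤ y := by
  classical
  exact Nat.find_min' _ h

theorem FF_mono {x y : ℕ} (h : x ≤ y) : FF x ≤ FF y := FF_le ((FF_spec y).mono_left h)

theorem sq_lt_FF (x : ℕ) : (x + 2) * (x + 2) < FF x := (FF_spec x).1

theorem lt_FF (x : ℕ) : x < FF x := by
  have := sq_lt_FF x
  nlinarith

theorem pow_le_FF (x : ℕ) : 2 ^ x ≤ FF x := by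
  obtain ⟨c, hc, d, _, h0, h⟩ := (FF_spec x).2.2 x (by omega)
  have key : ∀ i ≤ x, bet c d i = 2 ^ i := by
    intro i hi
    induction i with
    | zero => simpa using h0
    | succ i ih =>
      rw [h i (by omega), ih (by omega), pow_succ]
      ring
  have := bet_le c d x
  rw [key x le_rfl] at this
  omega

theorem iter_mono {x y : ℕ} (k : ℕ) (h : x ≤ y) : FF^[k] x ≤ FF^[k] y := by
  induction k with
  | zero => exact h
  | succ k ih =>
    rw [Function.iterate_succ_apply', Function.iterate_succ_apply']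
    exact FF_mono ih

theorem le_iter (k x : ℕ) : x ≤ FF^[k] x := by
  induction k with
  | zero => exact le_rfl
  | succ k ih =>
    rw [Function.iterate_succ_apply']
    exact ih.trans (lt_FF _).le

theorem iter_le {j k : ℕ} (h : j ≤ k) (x : ℕ) : FF^[j] x ≤ FF^[k] x := by
  obtain ⟨m, rfl⟩ := Nat.exists_eq_add_of_le h
  rw [Nat.add_comm, Function.iterate_add_apply]
  exact le_iter _ _

theorem iter_lt_succ (k x : ℕ) : FF^[k] x < FF^[k + 1] x := by
  rw [Function.iterate_succ_apply']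
  exact lt_FF _

/-! ### definability -/

theorem Df.step (x y : PT) : Df fun e v => Step (x.val e v) (y.val e v) := by
  let L : PT → PT := PT.lift
  have A1 := Df.lt (.mul (.add x (.add .one .one)) (.add x (.add .one .one))) y
  -- variables: i c' ... ; under c, d, k, e, c', d'
  have B1 : Df fun e v => (∀ a < (PT.var 3).val e v, JB.bet (consN a v 2) (consN a v 1) (consN a v 0)
      = JB.bet (consN a v 6) (consN a v 5) (consN a v 0)) :=
    (Df.betEq (.var 2) (.var 1) (.var 0) (.var 6) (.var 5) (.var 0)).ball (.var 3)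
  have B2 : Df fun e v => JB.bet (v 1) (v 0) (v 3) = v 2 :=
    Df.bet (.var 1) (.var 0) (.var 3) (.var 2)
  have B3 := (((((((B1.and B2).bex (.add (L (L (L (L (L y))))) .one)).bex
    (.add (L (L (L (L y)))) .one)).ball (.add (L (L (L x))) .one)).ball (.add (L (L x)) .one)).ball
    (.add (L x) .one)).ball (.add x .one))
  have C1 : Df fun e v => (∀ a < (PT.var 2).val e v, JB.bet (consN a v 2) (consN a v 1)
      (consN a v 0 + 1) = JB.bet (consN a v 2) (consN a v 1) (consN a v 0) +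
        JB.bet (consN a v 2) (consN a v 1) (consN a v 0)) := by
    refine Df.ball (.var 2) ?_ (R := fun e v => JB.bet (v 2) (v 1)
      (v 0 + 1) = JB.bet (v 2) (v 1) (v 0) + JB.bet (v 2) (v 1) (v 0))
    have h := ((Df.bet (.var 3) (.var 2) (.var 1) (.var 0)).and
      (Df.bet (.var 3) (.var 2) (.add (.var 1) .one) (.add (.var 0) (.var 0)))).bex
        (.add (.var 2) .one)
    refine h.congr fun e v => ?_
    simp only [PT.val_var, PT.val_add, PT.val_one, consN_zero, consN_succ]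
    constructor
    · rintro ⟨a, _, h1, h2⟩
      rw [h2, h1]
    · intro h
      exact ⟨_, Nat.lt_succ_of_le (bet_le _ _ _), rfl, h⟩
  have C2 : Df fun e v => JB.bet (v 1) (v 0) 0 = 1 :=
    Df.bet (.var 1) (.var 0) .zero .one
  have C3 := ((((C2.and C1).bex (.add (L (L y)) .one)).bex (.add (L y) .one)).ball (.add x .one))
  refine (A1.and (B3.and C3)).congr fun e v => ?_
  simp only [L, PT.val_lift, PT.val_add, PT.val_mul, PT.val_one, PT.val_var, consN_zero,
    consN_succ, Step]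

/-- chains -/
def Chain (w k a : ℕ) : Prop :=
  ∃ c < w, ∃ d < w, bet c d 0 = a ∧ ∀ i < k, Step (bet c d i) (bet c d (i + 1))

theorem Df.chain (w k a : PT) : Df fun e v => Chain (w.val e v) (k.val e v) (a.val e v) := by
  let L : PT → PT := PT.lift
  have B : Df fun e v => Step (JB.bet (v 2) (v 1) (v 0)) (JB.bet (v 2) (v 1) (v 0 + 1)) := by
    have h := (((Df.bet (.var 4) (.var 3) (.var 2) (.var 1)).and
      ((Df.bet (.var 4) (.var 3) (.add (.var 2) .one) (.var 0)).and
        (Df.step (.var 1) (.var 0)))).bex (.add (.var 3) .one)).bex (.add (.var 2) .one)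
    refine h.congr fun e v => ?_
    simp only [PT.val_var, PT.val_add, PT.val_one, consN_zero, consN_succ]
    constructor
    · rintro ⟨a, _, b, _, h1, h2, h3⟩
      rw [h1, h2]
      exact h3
    · intro h
      exact ⟨_, Nat.lt_succ_of_le (bet_le _ _ _), _, Nat.lt_succ_of_le (bet_le _ _ _), rfl, rfl,
        h⟩
  have h := (((Df.bet (.var 1) (.var 0) .zero (L (L a))).and (B.ball (L (L k)))).bex (L w)).bex w
  refine h.congr fun e v => ?_
  simp only [L, PT.val_lift, PT.val_var, PT.val_zero, consN_zero, consN_succ, Chain]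

theorem chain_mono {w w' k a : ℕ} (hw : w ≤ w') (h : Chain w k a) : Chain w' k a := by
  obtain ⟨c, hc, d, hd, h⟩ := h
  exact ⟨c, lt_of_lt_of_le hc hw, d, lt_of_lt_of_le hd hw, h⟩

theorem chain_ge {c d k a : ℕ} (h0 : bet c d 0 = a)
    (h : ∀ i < k, Step (bet c d i) (bet c d (i + 1))) : ∀ i ≤ k, FF^[i] a ≤ bet c d i := by
  intro i hi
  induction i with
  | zero => exact h0.ge
  | succ i ih =>
    rw [Function.iterate_succ_apply']
    exact (FF_mono (ih (by omega))).trans (FF_le (h i (by omega)))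

/-- a chain is longer than its bound allows -/
theorem chain_bound {w k a j : ℕ} (h : Chain w k a) (hj : j ≤ k) : FF^[j] a < w := by
  obtain ⟨c, hc, d, _, h0, h⟩ := h
  have := chain_ge h0 h j hj
  have := bet_le c d j
  omega

/-- extension of a chain by one step -/
theorem chain_succ {w k a : ℕ} (h : Chain w k a) : Chain (FF (max (FF w) (k + 1)) + 1) (k + 1) a := by
  obtain ⟨c, hc, d, hd, h0, h⟩ := h
  have h1 := bet_le c d k
  have h2 : FF (bet c d k) ≤ FF w := FF_mono (by omega)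
  have h3 := lt_FF w
  obtain ⟨c', hc', d', hd', h4, h5⟩ := (FF_spec (max (FF w) (k + 1))).2.1 c (by omega) d (by omega)
    (k + 1) (by omega) (FF (bet c d k)) (by omega)
  refine ⟨c', hc', d', hd', ?_, fun i hi => ?_⟩
  · rw [h4 0 (by omega), h0]
  · rw [h4 i hi]
    rcases Nat.lt_succ_iff_lt_or_eq.1 hi with h6 | rfl
    · rw [h4 (i + 1) (by omega)]
      exact h i h6
    · rw [h5]
      exact FF_spec _

theorem chain_zero (a : ℕ) : ∃ w, Chain w 0 a := by
  obtain ⟨c, d, h⟩ := exists_bet 1 fun _ => a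
  exact ⟨max c d + 1, c, by omega, d, by omega, h 0 (by omega), fun i hi => absurd hi
    (Nat.not_lt_zero i)⟩

end Pool.Agent.V11252.JB
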